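import Pool.Agent.Helper80.DR.FewQ
import Pool.Agent.Helper79.EM.EdgeSums

set_option autoImplicit false

namespace Pool.Agent.Results.MP_120218_co.FewQuotients

open Finset

/-- **The Erdős–Szemerédi inequality, for all `k` and with the full exponent, for all sets for
which division by the popular primes which do not act on the set gives few quotients.**

For all `k ≥ 1` and `ε, κ, δ > 0` there is `c > 0` such that: let `B ⊆ A` be finite sets of
integers, `A` non-empty, `0 ∉ B`, `|B| ≥ |A|^(1-c)`, and let `E` be a set of at most `c log |A|`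
numbers. Call a prime `p ∉ E` *free* if
* no value is taken by `v_p` on all but at most `c |B|` elements of `B`, and
* `p b ∈ B` for fewer than `κ |B|` elements `b` of `B` (otherwise `p` acts on `B`).

Let `Q` contain `b / d` for every `b ∈ B` and every squarefree divisor `d` of `b` which is a product
of at most `δ log |A|` free primes. If `|Q| ≤ |A|^(1+c)` then `max (|kA|, |A^k|) ≥ c |A|^(k - ε)`.

Special cases (with `B = A` or `B = A \ {0}`): at most `c log |A|` popular primes (no free primes,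
`Q = B`); all but `c log |A|` of the popular primes `p` act on `A` (again no free primes);
`A` divisor-closed (`Q = A`); `A` a dense subset of a divisor-closed set `D` (`Q = D`). -/
theorem result : ∀ k : ℕ, 1 ≤ k → ∀ ε κ δ : ℝ, 0 < ε → 0 < κ → 0 < δ → ∃ c : ℝ, 0 < c ∧
    ∀ A B Q : Finset ℤ, A.Nonempty → B ⊆ A → (0 : ℤ) ∉ B →
      (A.card : ℝ) ^ (1 - c) ≤ (B.card : ℝ) →
      ∀ E : Finset ℕ, (E.card : ℝ) ≤ c * Real.log (A.card : ℝ) →
      (∀ b ∈ B, ∀ d : ℕ, Squarefree d → (d : ℤ) ∣ b →
        (∀ p ∈ d.primeFactors, p ∉ E ∧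
          (∀ z : ℕ, c * (B.card : ℝ) <
            ((B.filter (fun b => padicValInt p b ≠ z)).card : ℝ)) ∧
          ((B.filter (fun b => (p : ℤ) * b ∈ B)).card : ℝ) < κ * (B.card : ℝ)) →
        (d.primeFactors.card : ℝ) ≤ δ * Real.log (A.card : ℝ) → b / (d : ℤ) ∈ Q) →
      (Q.card : ℝ) ≤ (A.card : ℝ) ^ (1 + c) →
      c * (A.card : ℝ) ^ ((k : ℝ) - ε) ≤
        max
          (((Fintype.piFinset (fun _ : Fin k => A)).image
              (fun f : Fin k → ℤ => ∑ i, f i)).card : ℝ)
          (((Fintype.piFinset (fun _ : Fin k => A)).image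
              (fun f : Fin k → ℤ => ∏ i, f i)).card : ℝ) := by
  classical
  intro k hk ε κ δ hε hκ hδ
  have hk0 : (0 : ℝ) < k := by exact_mod_cast hk
  -- the sumset is non-empty
  have hone : ∀ A : Finset ℤ, A.Nonempty → (1 : ℝ) ≤
      max
          (((Fintype.piFinset (fun _ : Fin k => A)).image
              (fun f : Fin k → ℤ => ∑ i, f i)).card : ℝ)
          (((Fintype.piFinset (fun _ : Fin k => A)).image
              (fun f : Fin k → ℤ => ∏ i, f i)).card : ℝ) := by
    intro A hA
    apply le_max_of_le_left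
    have : ((Fintype.piFinset (fun _ : Fin k => A)).image
              (fun f : Fin k → ℤ => ∑ i, f i)).Nonempty := by
      rw [Finset.image_nonempty, Fintype.piFinset_nonempty]
      exact fun _ => hA
    exact_mod_cast card_pos.mpr this
  by_cases hεk : (k : ℝ) ≤ ε
  · refine ⟨1, one_pos, ?_⟩
    intro A B Q hA _ _ _ E _ _ _
    refine le_trans ?_ (hone A hA)
    have hA1 : (1 : ℝ) ≤ A.card := by exact_mod_cast card_pos.mpr hA
    rw [one_mul]
    exact Real.rpow_le_one_of_one_le_of_nonpos hA1 (by linarith)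
  push Not at hεk
  obtain ⟨c1, hc1, hR⟩ := Pool.Agent.Helper80.DR.FQ.few_quotients k hk ε δ hε hδ
  obtain ⟨c2, hc2, hE2⟩ := Pool.Agent.Helper79.EM.edge_sums k (ε / 2) κ (c1 / 2) (by positivity) hκ
    (by positivity)
  refine ⟨min (min (c1 / 2) c2) (min (1 / 2) (ε / (2 * k))), by positivity, ?_⟩
  set c := min (min (c1 / 2) c2) (min (1 / 2) (ε / (2 * k))) with hcdef
  have hcpos : 0 < c := by rw [hcdef]; positivity
  have hca : c ≤ c1 / 2 := (min_le_left _ _).trans (min_le_left _ _)
  have hcb : c ≤ c2 := (min_le_left _ _).trans (min_le_right _ _)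
  have hcd : c ≤ 1 / 2 := (min_le_right _ _).trans (min_le_left _ _)
  have hce : c ≤ ε / (2 * k) := (min_le_right _ _).trans (min_le_right _ _)
  clear_value c
  intro A B Q hA hBA hB0 hcard E hE hdiv hQ
  have hA1 : (1 : ℝ) ≤ A.card := by exact_mod_cast card_pos.mpr hA
  have hA0 : (0 : ℝ) < A.card := by linarith
  have hL0 : 0 ≤ Real.log (A.card : ℝ) := Real.log_nonneg hA1
  have hBpos : (0 : ℝ) < B.card := lt_of_lt_of_le (by positivity) hcard
  have hBne : B.Nonempty := by rw [← card_pos]; exact_mod_cast hBpos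
  have hBAc : (B.card : ℝ) ≤ A.card := by exact_mod_cast card_le_card hBA
  have hLB : Real.log (B.card : ℝ) ≤ Real.log (A.card : ℝ) := Real.log_le_log hBpos hBAc
  have hprod0 : (∏ b ∈ B, b.natAbs) ≠ 0 := by
    rw [Finset.prod_ne_zero_iff]
    intro b hb h
    rw [Int.natAbs_eq_zero] at h
    exact hB0 (h ▸ hb)
  -- the primes which act on `B`
  set T := ((∏ b ∈ B, b.natAbs).primeFactors.filter
    (fun p : ℕ => κ * (B.card : ℝ) ≤ ((B.filter (fun b => (p : ℤ) * b ∈ B)).card : ℝ))) with hT
  have hTp : ∀ p ∈ T, p.Prime := fun p hp => Nat.prime_of_mem_primeFactors (mem_filter.1 hp).1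
  by_cases hcase : c1 / 2 * Real.log (A.card : ℝ) ≤ (T.card : ℝ)
  · -- many primes act on `B`
    have hkey := hE2 B T hBne hB0 hTp
      ((mul_le_mul_of_nonneg_left hLB (by positivity)).trans hcase)
      (fun p hp => (mem_filter.1 hp).2)
    have hsub : ((Fintype.piFinset (fun _ : Fin k => B)).image
              (fun f : Fin k → ℤ => ∑ i, f i)) ⊆
            ((Fintype.piFinset (fun _ : Fin k => A)).image
              (fun f : Fin k → ℤ => ∑ i, f i)) := by
      apply image_subset_image
      intro f hf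
      rw [Fintype.mem_piFinset] at hf ⊢
      exact fun i => hBA (hf i)
    refine le_trans ?_ (le_max_left _ _)
    refine le_trans ?_ ((hkey).trans (by exact_mod_cast card_le_card hsub))
    have h1 : (A.card : ℝ) ^ ((k : ℝ) - ε) ≤ (B.card : ℝ) ^ ((k : ℝ) - ε / 2) := by
      have h2 : ((A.card : ℝ) ^ (1 - c)) ^ ((k : ℝ) - ε / 2) ≤
          (B.card : ℝ) ^ ((k : ℝ) - ε / 2) :=
        Real.rpow_le_rpow (by positivity) hcard (by linarith)
      refine le_trans ?_ h2
      rw [← Real.rpow_mul hA0.le]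
      apply Real.rpow_le_rpow_of_exponent_le hA1
      have h3 : c * k ≤ ε / 2 := by
        have := mul_le_mul_of_nonneg_right hce hk0.le
        have h4 : ε / (2 * k) * k = ε / 2 := by field_simp
        linarith
      have h5 : c * (ε / 2) ≥ 0 := by positivity
      nlinarith
    exact mul_le_mul hcb h1 (by positivity) hc2.le
  · -- few primes act on `B`: they are exceptional primes
    push Not at hcase
    have hmain := hR A B Q hA hBA hB0 ?_ (T ∪ E) ?_ ?_ ?_
    · refine le_trans ?_ hmain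
      apply mul_le_mul_of_nonneg_right (by linarith) (by positivity)
    · refine le_trans ?_ hcard
      apply Real.rpow_le_rpow_of_exponent_le hA1
      linarith
    · have h1 : ((T ∪ E).card : ℝ) ≤ T.card + E.card := by
        exact_mod_cast card_union_le T E
      have h2 : c * Real.log (A.card : ℝ) ≤ c1 / 2 * Real.log (A.card : ℝ) :=
        mul_le_mul_of_nonneg_right hca hL0
      linarith
    · intro b hb d hd hdb hdp hdc
      refine hdiv b hb d hd hdb (fun p hp => ?_) hdc
      obtain ⟨h1, h2⟩ := hdp p hp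
      refine ⟨fun h => h1 (mem_union_right _ h), fun z => lt_of_le_of_lt ?_ (h2 z), ?_⟩
      · exact mul_le_mul_of_nonneg_right (by linarith) hBpos.le
      · by_contra hlt
        push Not at hlt
        apply h1
        apply mem_union_left
        rw [hT, mem_filter]
        refine ⟨?_, hlt⟩
        rw [Nat.mem_primeFactors]
        refine ⟨Nat.prime_of_mem_primeFactors hp, ?_, hprod0⟩
        have h3 : (p : ℤ) ∣ b :=
          (Int.natCast_dvd_natCast.2 (Nat.dvd_of_mem_primeFactors hp)).trans hdb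
        exact (Int.natCast_dvd.1 h3).trans (Finset.dvd_prod_of_mem _ hb)
    · refine hQ.trans ?_
      apply Real.rpow_le_rpow_of_exponent_le hA1
      linarith

/-- **Special case: few popular primes.** For every `k` and `ε` there is `c > 0` such that the
inequality of Q1 holds for every finite non-empty set `A` of integers for which all primes outside
a set of at most `c log |A|` numbers divide at most `c |A|` non-zero elements of `A`. -/
theorem few_popular_primes (k : ℕ) (hk : 1 ≤ k) (ε : ℝ) (hε : 0 < ε) : ∃ c : ℝ, 0 < c ∧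
    ∀ A : Finset ℤ, A.Nonempty → ∀ E : Finset ℕ, (E.card : ℝ) ≤ c * Real.log (A.card : ℝ) →
      (∀ p : ℕ, p.Prime → p ∉ E →
        (((A.erase 0).filter (fun a => (p : ℤ) ∣ a)).card : ℝ) ≤ c * (A.card : ℝ)) →
      c * (A.card : ℝ) ^ ((k : ℝ) - ε) ≤
        max
          (((Fintype.piFinset (fun _ : Fin k => A)).image
              (fun f : Fin k → ℤ => ∑ i, f i)).card : ℝ)
          (((Fintype.piFinset (fun _ : Fin k => A)).image
              (fun f : Fin k → ℤ => ∏ i, f i)).card : ℝ) := by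
  classical
  obtain ⟨c, hc, h⟩ := result k hk ε 1 1 hε one_pos one_pos
  have hN0 : (0 : ℝ) < 3 + 1 / c := by positivity
  refine ⟨min (c / 2) (((3 + 1 / c) ^ k)⁻¹), by positivity, ?_⟩
  set c' := min (c / 2) (((3 + 1 / c) ^ k)⁻¹) with hc'
  have hc0 : 0 < c' := by rw [hc']; positivity
  have h1 : c' ≤ c / 2 := min_le_left _ _
  have h3 : c' ≤ ((3 + 1 / c) ^ k)⁻¹ := min_le_right _ _
  clear_value c'
  intro A hA E hE hpop
  have hA1 : (1 : ℝ) ≤ A.card := by exact_mod_cast card_pos.mpr hA
  have hA0 : (0 : ℝ) < A.card := by linarith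
  by_cases hsmall : (A.card : ℝ) < 3 + 1 / c
  · -- small sets
    have hone : (1 : ℝ) ≤ (((Fintype.piFinset (fun _ : Fin k => A)).image
              (fun f : Fin k → ℤ => ∑ i, f i)).card : ℝ) := by
      have : ((Fintype.piFinset (fun _ : Fin k => A)).image
                (fun f : Fin k → ℤ => ∑ i, f i)).Nonempty := by
        rw [Finset.image_nonempty, Fintype.piFinset_nonempty]
        exact fun _ => hA
      exact_mod_cast card_pos.mpr this
    refine le_trans ?_ (le_max_of_le_left hone)
    have h4 : (A.card : ℝ) ^ ((k : ℝ) - ε) ≤ (A.card : ℝ) ^ (k : ℝ) :=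
      Real.rpow_le_rpow_of_exponent_le hA1 (by linarith)
    rw [Real.rpow_natCast] at h4
    have h5 : (A.card : ℝ) ^ k ≤ (3 + 1 / c) ^ k := pow_le_pow_left₀ hA0.le hsmall.le k
    calc c' * (A.card : ℝ) ^ ((k : ℝ) - ε) ≤ ((3 + 1 / c) ^ k)⁻¹ * (3 + 1 / c) ^ k :=
          mul_le_mul h3 (h4.trans h5) (by positivity) (by positivity)
      _ = 1 := inv_mul_cancel₀ (by positivity)
  push Not at hsmall
  have hA3 : (3 : ℝ) ≤ A.card := by
    have : 0 < 1 / c := by positivity
    linarith
  have hlog1 : 1 ≤ Real.log (A.card : ℝ) := by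
    rw [Real.le_log_iff_exp_le hA0]
    exact (Real.exp_one_lt_d9.le.trans (by norm_num)).trans hA3
  obtain ⟨B, hB⟩ : ∃ B, B = A.erase 0 := ⟨_, rfl⟩
  rw [← hB] at hpop
  have hBA : B ⊆ A := by rw [hB]; exact erase_subset _ _
  have hB0 : (0 : ℤ) ∉ B := by rw [hB]; simp
  have hBc : (A.card : ℝ) ≤ B.card + 1 := by
    have := pred_card_le_card_erase (s := A) (a := (0 : ℤ))
    rw [hB]
    have h4 : A.card ≤ (A.erase 0).card + 1 := by omega
    exact_mod_cast h4
  have hBhalf : (A.card : ℝ) / 2 ≤ B.card := by linarith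
  have hB1 : (A.card : ℝ) ^ (1 - c) ≤ (B.card : ℝ) := by
    have h4 : Real.log ((A.card : ℝ) / (A.card - 1)) ≤ c * Real.log A.card := by
      have hpos : (0 : ℝ) < A.card - 1 := by linarith
      have h5 : Real.log ((A.card : ℝ) / (A.card - 1)) ≤ (A.card : ℝ) / (A.card - 1) - 1 :=
        Real.log_le_sub_one_of_pos (by positivity)
      have h6 : (A.card : ℝ) / (A.card - 1) - 1 ≤ c := by
        rw [sub_le_iff_le_add, div_le_iff₀ hpos]
        have h7 : 1 / c ≤ A.card - 1 := by linarith
        rw [div_le_iff₀ hc] at h7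
        linarith
      have h8 : c * 1 ≤ c * Real.log A.card := mul_le_mul_of_nonneg_left hlog1 hc.le
      linarith
    have hpos : (0 : ℝ) < A.card - 1 := by linarith
    have h5 : (A.card : ℝ) ^ (1 - c) ≤ (A.card : ℝ) - 1 := by
      rw [Real.rpow_def_of_pos hA0, ← Real.le_log_iff_exp_le hpos]
      rw [Real.log_div hA0.ne' hpos.ne'] at h4
      linarith
    linarith
  have hEc : (E.card : ℝ) ≤ c * Real.log (A.card : ℝ) := by
    refine hE.trans ?_
    apply mul_le_mul_of_nonneg_right (by linarith) (by linarith)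
  have hmain := h A B B hA hBA hB0 hB1 E hEc ?_ ?_
  · refine le_trans ?_ hmain
    exact mul_le_mul_of_nonneg_right (by linarith) (by positivity)
  · intro b hb d hd hdb hdp _
    have hd1 : d = 1 := by
      by_contra hne
      obtain ⟨p, hp, hpd⟩ := Nat.exists_prime_and_dvd hne
      have hpm : p ∈ d.primeFactors := by
        rw [Nat.mem_primeFactors]
        exact ⟨hp, hpd, hd.ne_zero⟩
      obtain ⟨hpE, hpp, _⟩ := hdp p hpm
      have h4 := hpp 0
      have h5 : B.filter (fun b => padicValInt p b ≠ (0 : ℕ)) ⊆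
          B.filter (fun b => (p : ℤ) ∣ b) := by
        intro x hx
        rw [mem_filter] at hx ⊢
        refine ⟨hx.1, ?_⟩
        by_contra hnd
        apply hx.2
        unfold padicValInt
        apply padicValNat.eq_zero_of_not_dvd
        rw [← Int.natCast_dvd]
        exact hnd
      have h6 := hpop p hp hpE
      have h7 : ((B.filter (fun b => padicValInt p b ≠ (0 : ℕ))).card : ℝ) ≤
          ((B.filter (fun b => (p : ℤ) ∣ b)).card : ℝ) := by exact_mod_cast card_le_card h5
      have h8 : c' * (A.card : ℝ) ≤ c / 2 * (A.card : ℝ) :=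
        mul_le_mul_of_nonneg_right h1 hA0.le
      have h9 : c * ((A.card : ℝ) / 2) ≤ c * (B.card : ℝ) :=
        mul_le_mul_of_nonneg_left hBhalf hc.le
      have h10 : c / 2 * (A.card : ℝ) = c * ((A.card : ℝ) / 2) := by ring
      linarith
    subst hd1
    simpa using hb
  · calc (B.card : ℝ) ≤ A.card := by exact_mod_cast card_le_card hBA
      _ = (A.card : ℝ) ^ (1 : ℝ) := (Real.rpow_one _).symm
      _ ≤ (A.card : ℝ) ^ (1 + c) := Real.rpow_le_rpow_of_exponent_le hA1 (by linarith)

/-- **Special case: few prime factors (Szemerédi's question).** For every `k` and `ε` there is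
`c > 0` such that the inequality of Q1 holds for every finite non-empty set `A` of integers whose
elements have on average at most `c log |A|` distinct prime factors. -/
theorem few_prime_factors (k : ℕ) (hk : 1 ≤ k) (ε : ℝ) (hε : 0 < ε) : ∃ c : ℝ, 0 < c ∧
    ∀ A : Finset ℤ, A.Nonempty →
      (∑ a ∈ A, (a.natAbs.primeFactors.card : ℝ)) ≤
        c * Real.log (A.card : ℝ) * (A.card : ℝ) →
      c * (A.card : ℝ) ^ ((k : ℝ) - ε) ≤
        max
          (((Fintype.piFinset (fun _ : Fin k => A)).image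
              (fun f : Fin k → ℤ => ∑ i, f i)).card : ℝ)
          (((Fintype.piFinset (fun _ : Fin k => A)).image
              (fun f : Fin k → ℤ => ∏ i, f i)).card : ℝ) := by
  classical
  obtain ⟨c, hc, h⟩ := few_popular_primes k hk ε hε
  refine ⟨min c (c ^ 2), by positivity, ?_⟩
  have h1 : min c (c ^ 2) ≤ c := min_le_left _ _
  have h2 : min c (c ^ 2) ≤ c ^ 2 := min_le_right _ _
  set c' := min c (c ^ 2)
  clear_value c'
  intro A hA hω
  have hA1 : (1 : ℝ) ≤ A.card := by exact_mod_cast card_pos.mpr hA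
  have hA0 : (0 : ℝ) < A.card := by linarith
  have hL0 : 0 ≤ Real.log (A.card : ℝ) := Real.log_nonneg hA1
  have hprod0 : (∏ b ∈ A.erase 0, b.natAbs) ≠ 0 := by
    rw [Finset.prod_ne_zero_iff]
    intro b hb h
    rw [Int.natAbs_eq_zero] at h
    exact (mem_erase.1 hb).1 h
  have hdvd : ∀ p : ℕ, p.Prime → ∀ a ∈ A.erase 0, (p : ℤ) ∣ a →
      p ∈ a.natAbs.primeFactors := by
    intro p hp a ha hpa
    rw [Nat.mem_primeFactors]
    refine ⟨hp, Int.natCast_dvd.1 hpa, fun h0 => ?_⟩
    rw [Int.natAbs_eq_zero] at h0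
    exact (mem_erase.1 ha).1 h0
  -- the popular primes
  obtain ⟨E, hE⟩ : ∃ E : Finset ℕ, E = ((∏ b ∈ A.erase 0, b.natAbs).primeFactors.filter
    (fun p : ℕ => c * (A.card : ℝ) <
      (((A.erase 0).filter (fun b => (p : ℤ) ∣ b)).card : ℝ))) := ⟨_, rfl⟩
  have hEc : (E.card : ℝ) ≤ c * Real.log (A.card : ℝ) := by
    have h4 : (E.card : ℝ) * (c * A.card) ≤ ∑ a ∈ A, (a.natAbs.primeFactors.card : ℝ) := by
      have h5 : (E.card : ℝ) * (c * A.card) ≤
          ∑ p ∈ E, (((A.erase 0).filter (fun b => (p : ℤ) ∣ b)).card : ℝ) := by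
        rw [← nsmul_eq_mul]
        apply card_nsmul_le_sum
        intro p hp
        rw [hE, mem_filter] at hp
        exact hp.2.le
      have h6 : ∑ p ∈ E, (((A.erase 0).filter (fun b => (p : ℤ) ∣ b)).card : ℝ) =
          ∑ b ∈ A.erase 0, ((E.filter (fun p : ℕ => (p : ℤ) ∣ b)).card : ℝ) := by
        exact_mod_cast sum_card_bipartiteAbove_eq_sum_card_bipartiteBelow
          (s := E) (t := A.erase 0) (fun p b => ((p : ℕ) : ℤ) ∣ b)
      have h7 : ∑ b ∈ A.erase 0, ((E.filter (fun p : ℕ => (p : ℤ) ∣ b)).card : ℝ) ≤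
          ∑ b ∈ A.erase 0, (b.natAbs.primeFactors.card : ℝ) := by
        apply sum_le_sum
        intro b hb
        have : E.filter (fun p : ℕ => (p : ℤ) ∣ b) ⊆ b.natAbs.primeFactors := by
          intro p hp
          rw [mem_filter, hE, mem_filter] at hp
          exact hdvd p (Nat.prime_of_mem_primeFactors hp.1.1) b hb hp.2
        exact_mod_cast card_le_card this
      have h8 : ∑ b ∈ A.erase 0, (b.natAbs.primeFactors.card : ℝ) ≤
          ∑ a ∈ A, (a.natAbs.primeFactors.card : ℝ) :=
        sum_le_sum_of_subset_of_nonneg (erase_subset _ _) (fun _ _ _ => Nat.cast_nonneg _)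
      linarith
    have h5 : c' * Real.log (A.card : ℝ) * (A.card : ℝ) ≤
        c ^ 2 * Real.log (A.card : ℝ) * (A.card : ℝ) := by gcongr
    have h7 : (E.card : ℝ) * (c * A.card) ≤
        c * Real.log (A.card : ℝ) * (c * A.card) := by
      calc (E.card : ℝ) * (c * A.card) ≤ c ^ 2 * Real.log (A.card : ℝ) * (A.card : ℝ) := by
            linarith
        _ = c * Real.log (A.card : ℝ) * (c * A.card) := by ring
    exact le_of_mul_le_mul_right h7 (by positivity)
  refine le_trans ?_ (h A hA E hEc ?_)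
  · exact mul_le_mul_of_nonneg_right h1 (by positivity)
  · intro p hp hpE
    by_contra hlt
    push Not at hlt
    apply hpE
    rw [hE, mem_filter]
    refine ⟨?_, hlt⟩
    have hne : ((A.erase 0).filter (fun a => (p : ℤ) ∣ a)).Nonempty := by
      rw [← card_pos]
      have : (0 : ℝ) < (((A.erase 0).filter (fun a => (p : ℤ) ∣ a)).card : ℝ) :=
        lt_of_le_of_lt (by positivity) hlt
      exact_mod_cast this
    obtain ⟨b, hb⟩ := hne
    rw [mem_filter] at hb
    rw [Nat.mem_primeFactors]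
    exact ⟨hp, (Int.natCast_dvd.1 hb.2).trans (Finset.dvd_prod_of_mem _ hb.1), hprod0⟩

/-- The logarithms of the elements of a finite set `F` of positive natural numbers have sum at
least `|F| (log |F| - 1)`. -/
private theorem sum_log_ge (F : Finset ℕ) (hF : ∀ p ∈ F, 1 ≤ p) :
    (F.card : ℝ) * (Real.log (F.card : ℝ) - 1) ≤ ∑ p ∈ F, Real.log (p : ℝ) := by
  have h1 : ∀ s : Finset ℕ, (∀ p ∈ s, 1 ≤ p) →
      Real.log ((s.card.factorial : ℕ) : ℝ) ≤ ∑ p ∈ s, Real.log (p : ℝ) := by
    intro s
    induction s using Finset.induction_on_max with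
    | empty => intro _; simp
    | insert a s hs ih =>
      intro hpos
      have ha : a ∉ s := fun h => lt_irrefl a (hs a h)
      have hsc : s.card + 1 ≤ a := by
        have hsub : s ⊆ Finset.Ico 1 a := by
          intro x hx
          rw [Finset.mem_Ico]
          exact ⟨hpos x (mem_insert_of_mem hx), hs x hx⟩
        have := card_le_card hsub
        rw [Nat.card_Ico] at this
        have h2 := hpos a (mem_insert_self _ _)
        omega
      rw [card_insert_of_notMem ha, sum_insert ha, Nat.factorial_succ, Nat.cast_mul,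
        Real.log_mul (by positivity) (by positivity)]
      have h3 := ih (fun p hp => hpos p (mem_insert_of_mem hp))
      have h4 : Real.log ((s.card + 1 : ℕ) : ℝ) ≤ Real.log (a : ℝ) :=
        Real.log_le_log (by positivity) (by exact_mod_cast hsc)
      linarith
  refine le_trans ?_ (h1 F hF)
  rcases Nat.eq_zero_or_pos F.card with h0 | h0
  · rw [h0]; simp
  have hn : (0 : ℝ) < F.card := by exact_mod_cast h0
  have h2 := Real.pow_div_factorial_le_exp (F.card : ℝ) hn.le F.card
  have h3 : Real.log ((F.card : ℝ) ^ F.card / (F.card.factorial : ℝ)) ≤ F.card := by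
    have := Real.log_le_log (by positivity) h2
    rwa [Real.log_exp] at this
  rw [Real.log_div (by positivity) (by positivity), Real.log_pow] at h3
  linarith

/-- **Special case: small greatest common divisors.** For every `k` and `ε` there is `c > 0` such
that the inequality of Q1 holds for every finite non-empty set `A` of integers with
`gcd (a, b) ≤ |A|^(c log log |A|)` for all but at most `c |A|^2` pairs `(a, b)` of elements of
`A`. -/
theorem small_gcds (k : ℕ) (hk : 1 ≤ k) (ε : ℝ) (hε : 0 < ε) : ∃ c : ℝ, 0 < c ∧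
    ∀ A : Finset ℤ, A.Nonempty →
      (((A ×ˢ A).filter (fun x => (A.card : ℝ) ^ (c * Real.log (Real.log (A.card : ℝ))) <
        (Int.gcd x.1 x.2 : ℝ))).card : ℝ) ≤ c * (A.card : ℝ) ^ 2 →
      c * (A.card : ℝ) ^ ((k : ℝ) - ε) ≤
        max
          (((Fintype.piFinset (fun _ : Fin k => A)).image
              (fun f : Fin k → ℤ => ∑ i, f i)).card : ℝ)
          (((Fintype.piFinset (fun _ : Fin k => A)).image
              (fun f : Fin k → ℤ => ∏ i, f i)).card : ℝ) := by
  classical
  obtain ⟨c, hc, h⟩ := few_popular_primes k hk ε hε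
  set N0 : ℝ := Real.exp (Real.exp (2 * (1 + |Real.log c|))) with hN0
  have hN0pos : 0 < N0 := Real.exp_pos _
  refine ⟨min (min c (c ^ 2 / 2)) (min (c ^ 3 / 8) ((N0 ^ k)⁻¹)), by positivity, ?_⟩
  have h1 : min (min c (c ^ 2 / 2)) (min (c ^ 3 / 8) ((N0 ^ k)⁻¹)) ≤ c :=
    (min_le_left _ _).trans (min_le_left _ _)
  have h2 : min (min c (c ^ 2 / 2)) (min (c ^ 3 / 8) ((N0 ^ k)⁻¹)) ≤ c ^ 2 / 2 :=
    (min_le_left _ _).trans (min_le_right _ _)
  have h3 : min (min c (c ^ 2 / 2)) (min (c ^ 3 / 8) ((N0 ^ k)⁻¹)) ≤ c ^ 3 / 8 :=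
    (min_le_right _ _).trans (min_le_left _ _)
  have h4 : min (min c (c ^ 2 / 2)) (min (c ^ 3 / 8) ((N0 ^ k)⁻¹)) ≤ (N0 ^ k)⁻¹ :=
    (min_le_right _ _).trans (min_le_right _ _)
  have h0 : 0 < min (min c (c ^ 2 / 2)) (min (c ^ 3 / 8) ((N0 ^ k)⁻¹)) := by positivity
  set c' := min (min c (c ^ 2 / 2)) (min (c ^ 3 / 8) ((N0 ^ k)⁻¹))
  clear_value c'
  intro A hA hgcd
  have hA1 : (1 : ℝ) ≤ A.card := by exact_mod_cast card_pos.mpr hA
  have hA0 : (0 : ℝ) < A.card := by linarith
  by_cases hsmall : (A.card : ℝ) < N0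
  · -- small sets
    have hone : (1 : ℝ) ≤ (((Fintype.piFinset (fun _ : Fin k => A)).image
              (fun f : Fin k → ℤ => ∑ i, f i)).card : ℝ) := by
      have : ((Fintype.piFinset (fun _ : Fin k => A)).image
                (fun f : Fin k → ℤ => ∑ i, f i)).Nonempty := by
        rw [Finset.image_nonempty, Fintype.piFinset_nonempty]
        exact fun _ => hA
      exact_mod_cast card_pos.mpr this
    refine le_trans ?_ (le_max_of_le_left hone)
    have h5 : (A.card : ℝ) ^ ((k : ℝ) - ε) ≤ (A.card : ℝ) ^ (k : ℝ) :=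
      Real.rpow_le_rpow_of_exponent_le hA1 (by linarith)
    rw [Real.rpow_natCast] at h5
    have h6 : (A.card : ℝ) ^ k ≤ N0 ^ k := pow_le_pow_left₀ hA0.le hsmall.le k
    calc c' * (A.card : ℝ) ^ ((k : ℝ) - ε) ≤ (N0 ^ k)⁻¹ * N0 ^ k :=
          mul_le_mul h4 (h5.trans h6) (by positivity) (by positivity)
      _ = 1 := inv_mul_cancel₀ (by positivity)
  push Not at hsmall
  -- `L = log N` and `LL = log log N` are large
  have hL : Real.exp (2 * (1 + |Real.log c|)) ≤ Real.log (A.card : ℝ) := by
    rw [Real.le_log_iff_exp_le hA0]; exact hsmall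
  have hLpos : 0 < Real.log (A.card : ℝ) := lt_of_lt_of_le (Real.exp_pos _) hL
  have hLL : 2 * (1 + |Real.log c|) ≤ Real.log (Real.log (A.card : ℝ)) := by
    rw [Real.le_log_iff_exp_le hLpos]; exact hL
  have habs : 0 ≤ |Real.log c| := abs_nonneg _
  have hLLpos : 0 < Real.log (Real.log (A.card : ℝ)) := by linarith
  set L := Real.log (A.card : ℝ) with hLdef
  set LL := Real.log L with hLLdef
  have hprod0 : (∏ b ∈ A.erase 0, b.natAbs) ≠ 0 := by
    rw [Finset.prod_ne_zero_iff]
    intro b hb h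
    rw [Int.natAbs_eq_zero] at h
    exact (mem_erase.1 hb).1 h
  -- the popular primes
  obtain ⟨E, hE⟩ : ∃ E : Finset ℕ, E = ((∏ b ∈ A.erase 0, b.natAbs).primeFactors.filter
    (fun p : ℕ => c * (A.card : ℝ) <
      (((A.erase 0).filter (fun b => (p : ℤ) ∣ b)).card : ℝ))) := ⟨_, rfl⟩
  have hEc : (E.card : ℝ) ≤ c * L := by
    by_contra hlt
    push Not at hlt
    obtain ⟨F, hFE, hFc⟩ := exists_subset_card_eq (s := E) (n := ⌈c * L⌉₊) (by
      rw [Nat.ceil_le]; exact hlt.le)
    have hcL : c * L ≤ (F.card : ℝ) := by rw [hFc]; exact Nat.le_ceil _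
    have hcLpos : 0 < c * L := by positivity
    have hFpos : (0 : ℝ) < F.card := lt_of_lt_of_le hcLpos hcL
    have hFp : ∀ p ∈ F, p.Prime ∧ c * (A.card : ℝ) <
        (((A.erase 0).filter (fun b => (p : ℤ) ∣ b)).card : ℝ) := by
      intro p hp
      have := hFE hp
      rw [hE, mem_filter] at this
      exact ⟨Nat.prime_of_mem_primeFactors this.1, this.2⟩
    have hlogp : ∀ p ∈ F, 0 ≤ Real.log (p : ℝ) := fun p _ => Real.log_natCast_nonneg p
    obtain ⟨Lam, hLam⟩ : ∃ Lam : ℝ, Lam = ∑ p ∈ F, Real.log (p : ℝ) := ⟨_, rfl⟩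
    have hLam0 : 0 ≤ Lam := by rw [hLam]; exact sum_nonneg hlogp
    -- lower bound for `Lam`
    have hlow : c * L * (LL / 2) ≤ Lam := by
      have h5 := sum_log_ge F (fun p hp => (hFp p hp).1.one_lt.le)
      rw [← hLam] at h5
      refine le_trans ?_ h5
      have h6 : Real.log (c * L) ≤ Real.log (F.card : ℝ) := Real.log_le_log hcLpos hcL
      rw [Real.log_mul hc.ne' hLpos.ne'] at h6
      have h7 : -|Real.log c| ≤ Real.log c := neg_abs_le _
      have h8 : LL / 2 ≤ Real.log (F.card : ℝ) - 1 := by linarith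
      calc c * L * (LL / 2) ≤ F.card * (LL / 2) := by gcongr
        _ ≤ F.card * (Real.log (F.card : ℝ) - 1) := by gcongr
    -- the weight of a pair
    obtain ⟨w, hw⟩ : ∃ w : ℤ × ℤ → ℝ, w = fun x => ∑ p ∈ F.filter
      (fun p : ℕ => (p : ℤ) ∣ x.1 ∧ (p : ℤ) ∣ x.2), Real.log (p : ℝ) := ⟨_, rfl⟩
    have hw1 : ∀ x, w x ≤ Lam := by
      intro x
      rw [hw, hLam]
      exact sum_le_sum_of_subset_of_nonneg (filter_subset _ _) (fun p hp _ => hlogp p hp)
    have hw0 : ∀ x, 0 ≤ w x := by
      intro x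
      rw [hw]
      exact sum_nonneg (fun p hp => hlogp p (mem_filter.1 hp).1)
    have hw2 : ∀ x : ℤ × ℤ, x.1 ≠ 0 → w x ≤ Real.log (Int.gcd x.1 x.2 : ℝ) := by
      intro x hx
      have hg : Int.gcd x.1 x.2 ≠ 0 := by
        rw [Ne, Int.gcd_eq_zero_iff]; exact fun h => hx h.1
      rw [hw]
      simp only
      rw [← Real.log_prod (fun p hp => by
        have := (hFp p (mem_filter.1 hp).1).1.pos
        positivity)]
      have hdvd : ∏ p ∈ F.filter (fun p : ℕ => (p : ℤ) ∣ x.1 ∧ (p : ℤ) ∣ x.2), p ∣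
          Int.gcd x.1 x.2 := by
        apply Finset.prod_primes_dvd
        · intro p hp
          exact ((hFp p (mem_filter.1 hp).1).1).prime
        · intro p hp
          have := (mem_filter.1 hp).2
          exact Int.natCast_dvd_natCast.1 (Int.dvd_coe_gcd this.1 this.2)
      apply Real.log_le_log
      · apply prod_pos
        intro p hp
        have := (hFp p (mem_filter.1 hp).1).1.pos
        positivity
      · rw [← Nat.cast_prod, Nat.cast_le]
        exact Nat.le_of_dvd (Nat.pos_of_ne_zero hg) hdvd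
    -- double counting
    have hsum : c ^ 2 * (A.card : ℝ) ^ 2 * Lam ≤
        ∑ x ∈ (A.erase 0) ×ˢ (A.erase 0), w x := by
      have h5 : ∑ x ∈ (A.erase 0) ×ˢ (A.erase 0), w x =
          ∑ p ∈ F, ∑ x ∈ ((A.erase 0) ×ˢ (A.erase 0)).filter
            (fun x : ℤ × ℤ => (p : ℤ) ∣ x.1 ∧ (p : ℤ) ∣ x.2), Real.log (p : ℝ) := by
        rw [hw]
        simp only [sum_filter]
        exact sum_comm
      rw [h5, hLam, mul_sum]
      apply sum_le_sum
      intro p hp
      rw [sum_const, nsmul_eq_mul]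
      apply mul_le_mul_of_nonneg_right _ (hlogp p hp)
      have h6 : ((A.erase 0) ×ˢ (A.erase 0)).filter
            (fun x : ℤ × ℤ => (p : ℤ) ∣ x.1 ∧ (p : ℤ) ∣ x.2) =
          ((A.erase 0).filter (fun b => (p : ℤ) ∣ b)) ×ˢ
            ((A.erase 0).filter (fun b => (p : ℤ) ∣ b)) := by
        rw [filter_product]
      rw [h6, card_product, Nat.cast_mul]
      have h7 := (hFp p hp).2
      have h8 : (0 : ℝ) ≤ c * A.card := by positivity
      calc c ^ 2 * (A.card : ℝ) ^ 2 = (c * A.card) * (c * A.card) := by ring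
        _ ≤ _ := mul_le_mul h7.le h7.le h8 (by positivity)
    -- upper bound
    have hup : ∑ x ∈ (A.erase 0) ×ˢ (A.erase 0), w x ≤
        (A.card : ℝ) ^ 2 * (c' * LL * L) + c' * (A.card : ℝ) ^ 2 * Lam := by
      have h5 : ∀ x ∈ (A.erase 0) ×ˢ (A.erase 0), w x ≤ c' * LL * L +
          (if (A.card : ℝ) ^ (c' * LL) < (Int.gcd x.1 x.2 : ℝ) then Lam else 0) := by
        intro x hx
        rw [mem_product] at hx
        have hx1 : x.1 ≠ 0 := (mem_erase.1 hx.1).1
        have hnn : 0 ≤ c' * LL * L := by positivity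
        split_ifs with hG
        · linarith [hw1 x]
        · push Not at hG
          have hg : (0 : ℝ) < (Int.gcd x.1 x.2 : ℝ) := by
            have : Int.gcd x.1 x.2 ≠ 0 := by
              rw [Ne, Int.gcd_eq_zero_iff]; exact fun h => hx1 h.1
            exact_mod_cast Nat.pos_of_ne_zero this
          have h6 := Real.log_le_log hg hG
          rw [Real.log_rpow hA0] at h6
          linarith [hw2 x hx1]
      refine (sum_le_sum h5).trans ?_
      rw [sum_add_distrib, sum_const, nsmul_eq_mul, ← sum_filter, sum_const, nsmul_eq_mul]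
      have h6 : ((((A.erase 0) ×ˢ (A.erase 0)).card : ℕ) : ℝ) ≤ (A.card : ℝ) ^ 2 := by
        rw [card_product, Nat.cast_mul, sq]
        have : ((A.erase 0).card : ℝ) ≤ A.card := by exact_mod_cast card_erase_le
        exact mul_le_mul this this (by positivity) (by positivity)
      have h7 : (((((A.erase 0) ×ˢ (A.erase 0)).filter (fun x =>
          (A.card : ℝ) ^ (c' * LL) < (Int.gcd x.1 x.2 : ℝ))).card : ℕ) : ℝ) ≤
          c' * (A.card : ℝ) ^ 2 := by
        refine le_trans ?_ hgcd
        exact_mod_cast card_le_card (filter_subset_filter _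
          (product_subset_product (erase_subset _ _) (erase_subset _ _)))
      have h8 : 0 ≤ c' * LL * L := by positivity
      exact add_le_add (mul_le_mul_of_nonneg_right h6 h8) (mul_le_mul_of_nonneg_right h7 hLam0)
    have hN2 : (0 : ℝ) < (A.card : ℝ) ^ 2 := by positivity
    have h5 : c ^ 2 * (A.card : ℝ) ^ 2 * Lam ≤
        (A.card : ℝ) ^ 2 * (c' * LL * L) + c' * (A.card : ℝ) ^ 2 * Lam := hsum.trans hup
    have h6 : c ^ 2 * Lam ≤ c' * LL * L + c' * Lam := by
      have : (A.card : ℝ) ^ 2 * (c ^ 2 * Lam) ≤ (A.card : ℝ) ^ 2 * (c' * LL * L + c' * Lam) := by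
        linarith
      exact le_of_mul_le_mul_left this hN2
    have h7 : c' * Lam ≤ c ^ 2 / 2 * Lam := mul_le_mul_of_nonneg_right h2 hLam0
    have h8 : c ^ 2 / 2 * (c * L * (LL / 2)) ≤ c ^ 2 / 2 * Lam :=
      mul_le_mul_of_nonneg_left hlow (by positivity)
    have h9 : c' * (LL * L) ≤ c ^ 3 / 8 * (LL * L) :=
      mul_le_mul_of_nonneg_right h3 (by positivity)
    have h10 : 0 < c ^ 3 * (LL * L) := by positivity
    nlinarith
  refine le_trans ?_ (h A hA E hEc ?_)
  · exact mul_le_mul_of_nonneg_right h1 (by positivity)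
  · intro p hp hpE
    by_contra hlt
    push Not at hlt
    apply hpE
    rw [hE, mem_filter]
    refine ⟨?_, hlt⟩
    have hne : ((A.erase 0).filter (fun a => (p : ℤ) ∣ a)).Nonempty := by
      rw [← card_pos]
      have : (0 : ℝ) < (((A.erase 0).filter (fun a => (p : ℤ) ∣ a)).card : ℝ) :=
        lt_of_le_of_lt (by positivity) hlt
      exact_mod_cast this
    obtain ⟨b, hb⟩ := hne
    rw [mem_filter] at hb
    rw [Nat.mem_primeFactors]
    exact ⟨hp, (Int.natCast_dvd.1 hb.2).trans (Finset.dvd_prod_of_mem _ hb.1), hprod0⟩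

end Pool.Agent.Results.MP_120218_co.FewQuotients
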